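import Pool.Agent.V1157.SY.Conj

/-!
# The components of the group of compactly supported symplectomorphisms of `ℝ^{2n}`

For every `n`, the group `SympCt n` of the compactly supported symplectomorphisms of `ℝ^{2n}`,
with the direct limit of the `C^∞` topologies, has countably many path components (question (c)).
Moreover `φψ` and `ψφ` always lie in the same component, every component meets the symplectomorphisms
supported in any given nonempty open set, and `φ` lies in the component of the identity as soon
as no differential `Dφ(x)` has a real eigenvalue `≤ -1`.
-/

set_option autoImplicit false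

open Set Topology

namespace Pool.Agent.Results.MP_ec5dc5_gt.CountableComponents

open Pool.Agent.V1157.SY

theorem result (n : ℕ) :
    Countable (ZerothHomotopy (SympCt n)) ∧
    (∀ φ ψ : SympCt n, Joined (φ * ψ) (ψ * φ)) ∧
    (∀ (φ : SympCt n) (U : Set (V n)), IsOpen U → U.Nonempty →
      ∃ ψ : SympCt n, Joined φ ψ ∧ ψ ∈ SuppIn U) ∧
    (∀ φ : SympCt n, (∀ (x v : V n) (c : ℝ), c ≤ -1 → fderiv ℝ φ x v = c • v → v = 0) →
      Joined 1 φ) :=
  ⟨countable_components, joined_comm, fun φ _ hU hne => small_support φ hU hne,
    fun φ h => joined_crit φ h⟩

end Pool.Agent.Results.MP_ec5dc5_gt.CountableComponents
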